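import Pool.Agent.Helper70.SUB.SheetG

/-!
Project SUB, row HERM: Hermite reduction of positive definite real matrices.
-/

set_option autoImplicit false

namespace Pool.Agent.Helper2.SUB

open Finset Matrix Pool.Agent.Helper70.SUB

/-- the value of the form at a vector -/
noncomputable def qf {N : ℕ} (M : Matrix (Fin N) (Fin N) ℝ) (x : Fin N → ℝ) : ℝ :=
  x ⬝ᵥ (M *ᵥ x)

lemma diag_eq {N : ℕ} (M : Matrix (Fin N) (Fin N) ℝ) (W : Matrix (Fin N) (Fin N) ℝ) (k : Fin N) :
    (Wᵀ * M * W) k k = qf M (fun i => W i k) := by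
  unfold qf
  rw [Matrix.mul_assoc, Matrix.mul_apply]
  simp only [Matrix.transpose_apply, dotProduct]
  refine Finset.sum_congr rfl fun i _ => ?_
  rw [Matrix.mul_apply]
  simp only [Matrix.mulVec, dotProduct]

lemma qf_pos {N : ℕ} {M : Matrix (Fin N) (Fin N) ℝ} (hM : M.PosDef) {x : Fin N → ℝ} (hx : x ≠ 0) :
    0 < qf M x := by
  have h := hM.dotProduct_mulVec_pos hx
  simpa [qf] using h

lemma qf_smul {N : ℕ} (M : Matrix (Fin N) (Fin N) ℝ) (t : ℝ) (x : Fin N → ℝ) :
    qf M (t • x) = t ^ 2 * qf M x := by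
  unfold qf
  rw [Matrix.mulVec_smul, dotProduct_smul, smul_dotProduct]
  simp only [smul_eq_mul]
  ring

/-- entries of a vector are bounded in terms of the form -/
lemma entry_bound {N : ℕ} {M : Matrix (Fin N) (Fin N) ℝ} (hM : M.PosDef) (b : ℝ) :
    ∃ K : ℝ, ∀ x : Fin N → ℝ, qf M x ≤ b → ∀ i, |x i| ≤ K := by
  by_cases hN : Nonempty (Fin N)
  · have hcpt : IsCompact (Metric.sphere (0 : Fin N → ℝ) 1) := isCompact_sphere 0 1
    have hne : (Metric.sphere (0 : Fin N → ℝ) 1).Nonempty := by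
      refine ⟨fun _ => 1, ?_⟩
      rw [mem_sphere_zero_iff_norm]
      rw [pi_norm_const]
      simp
    have hcont : ContinuousOn (fun x => qf M x) (Metric.sphere (0 : Fin N → ℝ) 1) := by
      apply Continuous.continuousOn
      unfold qf
      simp only [dotProduct, Matrix.mulVec]
      fun_prop
    obtain ⟨x0, hx0, hmin⟩ := hcpt.exists_isMinOn hne hcont
    have hx0ne : x0 ≠ 0 := by
      intro h
      rw [h] at hx0
      simp at hx0
    have hc : 0 < qf M x0 := qf_pos hM hx0ne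
    refine ⟨Real.sqrt (b / qf M x0), fun x hx i => ?_⟩
    by_cases hx0' : x = 0
    · rw [hx0']
      simp only [Pi.zero_apply, abs_zero]
      exact Real.sqrt_nonneg _
    have hn : 0 < ‖x‖ := norm_pos_iff.mpr hx0'
    have hmem : (‖x‖⁻¹ • x) ∈ Metric.sphere (0 : Fin N → ℝ) 1 := by
      rw [mem_sphere_zero_iff_norm, norm_smul, norm_inv, norm_norm]
      exact inv_mul_cancel₀ hn.ne'
    have h1 : qf M x0 ≤ qf M (‖x‖⁻¹ • x) := hmin hmem
    rw [qf_smul] at h1
    have h2 : ‖x‖ ^ 2 ≤ b / qf M x0 := by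
      rw [le_div_iff₀ hc]
      calc ‖x‖ ^ 2 * qf M x0 ≤ ‖x‖ ^ 2 * (‖x‖⁻¹ ^ 2 * qf M x) := by gcongr
        _ = qf M x := by field_simp
        _ ≤ b := hx
    have h3 : |x i| ≤ ‖x‖ := by
      have := norm_le_pi_norm x i
      rwa [Real.norm_eq_abs] at this
    exact h3.trans (Real.le_sqrt_of_sq_le h2)
  · exact ⟨0, fun x _ i => (hN ⟨i⟩).elim⟩

/-- the Schur complement -/
noncomputable def sch {N : ℕ} (M : Matrix (Fin (N + 1)) (Fin (N + 1)) ℝ) :
    Matrix (Fin N) (Fin N) ℝ :=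
  fun i j => M i.succ j.succ - M 0 i.succ * M 0 j.succ / M 0 0

lemma qf_sch {N : ℕ} {M : Matrix (Fin (N + 1)) (Fin (N + 1)) ℝ} (hs : ∀ i j, M i j = M j i)
    (h0 : M 0 0 ≠ 0) (t : ℝ) (y : Fin N → ℝ) :
    qf M (Fin.cons t y : Fin (N + 1) → ℝ)
      = M 0 0 * (t + ∑ i, (M 0 i.succ / M 0 0) * y i) ^ 2 + qf (sch M) y := by
  have e1 : qf M (Fin.cons t y : Fin (N + 1) → ℝ)
      = t * (M 0 0 * t + ∑ j, M 0 j.succ * y j)
        + ∑ i, y i * (M 0 i.succ * t + ∑ j, M i.succ j.succ * y j) := by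
    unfold qf
    simp only [dotProduct, Matrix.mulVec, Fin.sum_univ_succ, Fin.cons_zero, Fin.cons_succ]
    congr 1
    refine Finset.sum_congr rfl fun i _ => ?_
    rw [hs i.succ 0]
  have e2 : qf (sch M) y = ∑ i, ∑ j, (y i * (M i.succ j.succ * y j)
      - (M 0 i.succ * y i) * (M 0 j.succ * y j) / M 0 0) := by
    unfold qf sch
    simp only [dotProduct, Matrix.mulVec, Finset.mul_sum]
    refine Finset.sum_congr rfl fun i _ => Finset.sum_congr rfl fun j _ => ?_
    ring
  have e3 : ∑ i, (M 0 i.succ / M 0 0) * y i = (∑ i, M 0 i.succ * y i) / M 0 0 := by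
    rw [Finset.sum_div]
    refine Finset.sum_congr rfl fun i _ => ?_
    ring
  have e4 : ∑ i, ∑ j, ((M 0 i.succ * y i) * (M 0 j.succ * y j) / M 0 0)
      = (∑ i, M 0 i.succ * y i) * (∑ i, M 0 i.succ * y i) / M 0 0 := by
    rw [Finset.sum_mul_sum, Finset.sum_div]
    refine Finset.sum_congr rfl fun i _ => ?_
    rw [Finset.sum_div]
  have e5 : ∑ i, y i * (M 0 i.succ * t + ∑ j, M i.succ j.succ * y j)
      = t * (∑ i, M 0 i.succ * y i) + ∑ i, ∑ j, y i * (M i.succ j.succ * y j) := by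
    rw [Finset.mul_sum, ← Finset.sum_add_distrib]
    refine Finset.sum_congr rfl fun i _ => ?_
    rw [mul_add, Finset.mul_sum]
    ring
  rw [e1, e5, e2, e3]
  simp only [Finset.sum_sub_distrib]
  rw [e4]
  field_simp
  ring

lemma sch_posDef {N : ℕ} {M : Matrix (Fin (N + 1)) (Fin (N + 1)) ℝ} (hM : M.PosDef) :
    (sch M).PosDef := by
  have hs : ∀ i j, M i j = M j i := by
    intro i j
    have := congrFun (congrFun hM.isHermitian j) i
    simpa using this
  have h0 : 0 < M 0 0 := hM.diag_pos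
  refine Matrix.PosDef.of_dotProduct_mulVec_pos ?_ ?_
  · ext i j
    simp only [Matrix.conjTranspose_apply, sch, star_trivial]
    rw [hs j.succ i.succ]
    ring
  · intro y hy
    have h := qf_sch hs h0.ne' (-(∑ i, (M 0 i.succ / M 0 0) * y i)) y
    have hne : (Fin.cons (-(∑ i, (M 0 i.succ / M 0 0) * y i)) y : Fin (N + 1) → ℝ) ≠ 0 := by
      intro h'
      apply hy
      ext i
      have := congrFun h' i.succ
      simpa using this
    have h2 := qf_pos hM hne
    rw [h] at h2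
    simp only [star_trivial]
    have h3 : (-(∑ i, (M 0 i.succ / M 0 0) * y i) + ∑ i, (M 0 i.succ / M 0 0) * y i) = 0 := by ring
    rw [h3] at h2
    simpa [qf] using h2

lemma sch_det {N : ℕ} {M : Matrix (Fin (N + 1)) (Fin (N + 1)) ℝ} (hs : ∀ i j, M i j = M j i)
    (h0 : M 0 0 ≠ 0) : M.det = M 0 0 * (sch M).det := by
  set B : Matrix (Fin (N + 1)) (Fin (N + 1)) ℝ :=
    fun i j => if i = 0 then M 0 j else M i j - M i 0 / M 0 0 * M 0 j with hB
  have h1 : M.det = B.det := by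
    refine Matrix.det_eq_of_forall_row_eq_smul_add_const
      (fun i => if i = 0 then 0 else M i 0 / M 0 0) 0 (by simp) ?_
    intro i j
    by_cases hi : i = 0
    · simp [hB, hi]
    · simp [hB, hi]
  rw [h1, Matrix.det_succ_column_zero, Fin.sum_univ_succ]
  have h2 : ∀ i : Fin N, B i.succ 0 = 0 := by
    intro i
    simp only [hB, Fin.succ_ne_zero, if_false]
    field_simp
    ring
  have h3 : B.submatrix (Fin.succAbove 0) Fin.succ = sch M := by
    ext i j
    simp only [Matrix.submatrix_apply, Fin.zero_succAbove, hB, Fin.succ_ne_zero, if_false, sch]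
    rw [hs i.succ 0]
    ring
  simp only [h2, mul_zero, zero_mul, Finset.sum_const_zero, add_zero]
  rw [h3]
  simp [hB]

/-- extension of an integral matrix by a column -/
def ext1 {N : ℕ} (W : Matrix (Fin N) (Fin N) ℤ) (t : Fin N → ℤ) :
    Matrix (Fin (N + 1)) (Fin (N + 1)) ℤ :=
  Fin.cons (Fin.cons 1 t) (fun i => Fin.cons 0 (W i))

lemma ext1_det {N : ℕ} (W : Matrix (Fin N) (Fin N) ℤ) (t : Fin N → ℤ) :
    (ext1 W t).det = W.det := by
  rw [Matrix.det_succ_column_zero, Fin.sum_univ_succ]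
  have h2 : ∀ i : Fin N, ext1 W t i.succ 0 = 0 := by
    intro i
    simp [ext1]
  have h3 : (ext1 W t).submatrix (Fin.succAbove 0) Fin.succ = W := by
    ext i j
    simp [ext1, Matrix.submatrix_apply]
  simp only [h2, mul_zero, zero_mul, Finset.sum_const_zero, add_zero]
  rw [h3]
  simp [ext1]

lemma mR_mul {N : ℕ} (W W' : Matrix (Fin N) (Fin N) ℤ) : mR (W * W') = mR W * mR W' := by
  have := Matrix.map_mul (L := W) (M := W') (f := Int.castRingHom ℝ)
  simpa using this

lemma mR_det {N : ℕ} (W : Matrix (Fin N) (Fin N) ℤ) : (mR W).det = (W.det : ℝ) := by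
  have := (Int.castRingHom ℝ).map_det W
  simpa using this.symm

/-- the first column of a unimodular matrix can be chosen of minimal size -/
lemma exists_min {N : ℕ} {M : Matrix (Fin (N + 1)) (Fin (N + 1)) ℝ} (hM : M.PosDef) :
    ∃ W : Matrix (Fin (N + 1)) (Fin (N + 1)) ℤ, IsUnit W.det ∧
      ∀ W' : Matrix (Fin (N + 1)) (Fin (N + 1)) ℤ, IsUnit W'.det → ∀ k,
        qf M (fun i => (W i 0 : ℝ)) ≤ qf M (fun i => (W' i k : ℝ)) := by
  set b : ℝ := qf M (fun i => ((1 : Matrix (Fin (N + 1)) (Fin (N + 1)) ℤ) i 0 : ℝ)) with hb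
  obtain ⟨K, hK⟩ := entry_bound hM b
  set T : Set (Fin (N + 1) → ℤ) := {x | (∃ W : Matrix (Fin (N + 1)) (Fin (N + 1)) ℤ,
    IsUnit W.det ∧ ∀ i, W i 0 = x i) ∧ qf M (fun i => (x i : ℝ)) ≤ b} with hT
  have hfin : T.Finite := by
    refine Set.Finite.subset (Set.Finite.pi' (fun _ : Fin (N + 1) =>
      Set.finite_Icc (-⌈K⌉) ⌈K⌉)) ?_
    intro x hx i
    have h1 := hK _ hx.2 i
    rw [Set.mem_Icc]
    rw [abs_le] at h1
    have h2 : K ≤ ⌈K⌉ := Int.le_ceil K
    constructor
    · have : (-(⌈K⌉ : ℝ)) ≤ x i := by linarith [h1.1]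
      exact_mod_cast this
    · have : (x i : ℝ) ≤ ⌈K⌉ := by linarith [h1.2]
      exact_mod_cast this
  have hne : T.Nonempty := by
    refine ⟨fun i => (1 : Matrix (Fin (N + 1)) (Fin (N + 1)) ℤ) i 0, ⟨1, ?_, fun i => rfl⟩, ?_⟩
    · rw [Matrix.det_one]
      exact isUnit_one
    · exact le_of_eq hb.symm
  obtain ⟨x, hx, hmin⟩ := Set.exists_min_image T (fun x => qf M (fun i => (x i : ℝ))) hfin hne
  obtain ⟨⟨W, hW, hWx⟩, hxb⟩ := hx
  refine ⟨W, hW, fun W' hW' k => ?_⟩
  have e1 : (fun i => (W i 0 : ℝ)) = (fun i => (x i : ℝ)) := by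
    funext i
    rw [hWx i]
  rw [e1]
  by_cases hle : qf M (fun i => (W' i k : ℝ)) ≤ b
  · refine hmin (fun i => W' i k) ⟨⟨W'.submatrix id (Equiv.swap 0 k), ?_, ?_⟩, hle⟩
    · rw [Matrix.det_permute']
      rcases Int.units_eq_one_or (Equiv.Perm.sign (Equiv.swap 0 k : Equiv.Perm (Fin (N + 1)))) with h | h
      · rw [h]
        simpa using hW'
      · rw [h]
        simpa using hW'
    · intro i
      simp [Matrix.submatrix_apply]
  · push Not at hle
    exact hxb.trans hle.le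

theorem HERM : ST_HERM := by
  intro N
  induction N with
  | zero =>
    refine ⟨1, one_pos, fun M _ => ⟨1, by simp, ?_⟩⟩
    simp
  | succ N ih =>
    obtain ⟨C, hC, ih⟩ := ih
    refine ⟨(4 / 3) ^ N * C, by positivity, fun M hM => ?_⟩
    obtain ⟨W1, hW1, hmin⟩ := exists_min hM
    have hW1R : IsUnit (mR W1) := by
      rw [Matrix.isUnit_iff_isUnit_det, mR_det]
      exact hW1.map (Int.castRingHom ℝ)
    set M1 : Matrix (Fin (N + 1)) (Fin (N + 1)) ℝ := (mR W1)ᵀ * M * mR W1 with hM1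
    have hM1p : M1.PosDef := by
      have := (Matrix.IsUnit.posDef_star_left_conjugate_iff hW1R (x := M)).mpr hM
      rw [Matrix.star_eq_conjTranspose] at this
      have e : (mR W1)ᴴ = (mR W1)ᵀ := by
        ext i j
        simp
      rw [e] at this
      exact this
    have hs : ∀ i j, M1 i j = M1 j i := by
      intro i j
      have := congrFun (congrFun hM1p.isHermitian j) i
      simpa using this
    have h0 : 0 < M1 0 0 := hM1p.diag_pos
    have hdet1 : M1.det = M.det := by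
      rw [hM1, Matrix.det_mul, Matrix.det_mul, Matrix.det_transpose, mR_det]
      rcases Int.isUnit_iff.mp hW1 with h | h
      · rw [h]
        simp
      · rw [h]
        simp
    obtain ⟨W2, hW2, h2⟩ := ih (sch M1) (sch_posDef hM1p)
    set t : Fin N → ℤ := fun k => -round (∑ i, (M1 0 i.succ / M1 0 0) * (W2 i k : ℝ)) with ht
    set W' := ext1 W2 t with hW'
    refine ⟨W1 * W', ?_, ?_⟩
    · rw [Matrix.det_mul, hW', ext1_det]
      exact hW1.mul hW2
    have e1 : (mR (W1 * W'))ᵀ * M * mR (W1 * W') = (mR W')ᵀ * M1 * mR W' := by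
      rw [mR_mul, Matrix.transpose_mul, hM1]
      simp only [Matrix.mul_assoc]
    rw [e1, Fin.prod_univ_succ]
    -- the first diagonal entry
    have d0 : ((mR W')ᵀ * M1 * mR W') 0 0 = M1 0 0 := by
      rw [diag_eq]
      have : (fun i => mR W' i 0) = (Fin.cons (1 : ℝ) (0 : Fin N → ℝ) : Fin (N + 1) → ℝ) := by
        funext i
        refine Fin.cases ?_ (fun i => ?_) i
        · simp [hW', ext1]
        · simp [hW', ext1]
      rw [this, qf_sch hs h0.ne']
      simp [qf]
    -- the other ones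
    have d1 : ∀ k : Fin N, 0 ≤ ((mR W')ᵀ * M1 * mR W') k.succ k.succ ∧
        ((mR W')ᵀ * M1 * mR W') k.succ k.succ ≤ 4 / 3 * ((mR W2)ᵀ * sch M1 * mR W2) k k := by
      intro k
      have hk : (fun i => mR W' i k.succ)
          = (Fin.cons (t k : ℝ) (fun i => mR W2 i k) : Fin (N + 1) → ℝ) := by
        funext i
        refine Fin.cases ?_ (fun i => ?_) i
        · simp [hW', ext1]
        · simp [hW', ext1]
      have hval : ((mR W')ᵀ * M1 * mR W') k.succ k.succ
          = M1 0 0 * ((t k : ℝ) + ∑ i, (M1 0 i.succ / M1 0 0) * mR W2 i k) ^ 2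
            + ((mR W2)ᵀ * sch M1 * mR W2) k k := by
        rw [diag_eq, hk, qf_sch hs h0.ne', ← diag_eq]
      have hsq : ((t k : ℝ) + ∑ i, (M1 0 i.succ / M1 0 0) * mR W2 i k) ^ 2 ≤ 1 / 4 := by
        have hr := abs_sub_round (∑ i, (M1 0 i.succ / M1 0 0) * (W2 i k : ℝ))
        have e : ((t k : ℝ) + ∑ i, (M1 0 i.succ / M1 0 0) * mR W2 i k)
            = (∑ i, (M1 0 i.succ / M1 0 0) * (W2 i k : ℝ))
              - (round (∑ i, (M1 0 i.succ / M1 0 0) * (W2 i k : ℝ)) : ℝ) := by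
          simp only [ht, Matrix.map_apply, Int.cast_neg]
          ring
        rw [e, ← sq_abs]
        nlinarith [abs_nonneg ((∑ i, (M1 0 i.succ / M1 0 0) * (W2 i k : ℝ))
              - (round (∑ i, (M1 0 i.succ / M1 0 0) * (W2 i k : ℝ)) : ℝ))]
      -- minimality
      have hmk : M1 0 0 ≤ ((mR W')ᵀ * M1 * mR W') k.succ k.succ := by
        have hu : IsUnit (W1 * W').det := by
          rw [Matrix.det_mul, hW', ext1_det]
          exact hW1.mul hW2
        have h := hmin (W1 * W') hu k.succ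
        have a1 : M1 0 0 = qf M (fun i => (W1 i 0 : ℝ)) := by
          rw [hM1, diag_eq]
          rfl
        rw [← e1, diag_eq, a1]
        exact h
      rw [hval] at hmk ⊢
      constructor
      · linarith
      · nlinarith
    rw [d0]
    calc M1 0 0 * ∏ k : Fin N, ((mR W')ᵀ * M1 * mR W') k.succ k.succ
        ≤ M1 0 0 * ∏ k : Fin N, (4 / 3 * ((mR W2)ᵀ * sch M1 * mR W2) k k) := by
          refine mul_le_mul_of_nonneg_left ?_ h0.le
          exact Finset.prod_le_prod (fun k _ => (d1 k).1) (fun k _ => (d1 k).2)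
      _ = (4 / 3) ^ N * (M1 0 0 * ∏ k : Fin N, ((mR W2)ᵀ * sch M1 * mR W2) k k) := by
          rw [Finset.prod_mul_distrib]
          simp only [Finset.prod_const, Finset.card_univ, Fintype.card_fin]
          ring
      _ ≤ (4 / 3) ^ N * (M1 0 0 * (C * (sch M1).det)) := by
          refine mul_le_mul_of_nonneg_left (mul_le_mul_of_nonneg_left h2 h0.le) (by positivity)
      _ = (4 / 3) ^ N * C * (M1 0 0 * (sch M1).det) := by ring
      _ = (4 / 3) ^ N * C * M.det := by rw [← sch_det hs h0.ne', hdet1]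

end Pool.Agent.Helper2.SUB
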