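import Pool.Agent.Helper2.SUB.HERM

/-!
Project SUB, row REDB: reduced bases.
-/

set_option autoImplicit false

namespace Pool.Agent.Helper2.SUB

open Finset Matrix Pool.Agent.Helper70.SUB

theorem REDB (hH : ST_HERM) : ST_REDB := by
  intro N
  obtain ⟨C, hC, hH⟩ := hH N
  refine ⟨1 + (N.factorial : ℝ) * Real.sqrt C, by
    have := Real.sqrt_nonneg C
    have h2 : (0 : ℝ) ≤ N.factorial := by positivity
    nlinarith [mul_nonneg h2 this], fun G hG => ?_⟩
  set C1 : ℝ := 1 + (N.factorial : ℝ) * Real.sqrt C with hC1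
  have hC1pos : 1 ≤ C1 := by
    have := Real.sqrt_nonneg C
    have h2 : (0 : ℝ) ≤ N.factorial := by positivity
    nlinarith [mul_nonneg h2 this]
  have hM : (Gᵀ * G).PosDef := by
    have hinj : Function.Injective G.mulVec := by
      rw [Matrix.mulVec_injective_iff_isUnit, Matrix.isUnit_iff_isUnit_det]
      exact isUnit_iff_ne_zero.mpr hG
    have := Matrix.PosDef.conjTranspose_mul_self G hinj
    have e : Gᴴ = Gᵀ := by
      ext i j
      simp
    rwa [e] at this
  obtain ⟨W0, hW0, h0⟩ := hH _ hM
  -- the squares of the lengths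
  have hdiag : ∀ k, ((mR W0)ᵀ * (Gᵀ * G) * mR W0) k k = ∑ i, ((G * mR W0) i k) ^ 2 := by
    intro k
    have e : (mR W0)ᵀ * (Gᵀ * G) * mR W0 = (G * mR W0)ᵀ * (G * mR W0) := by
      rw [Matrix.transpose_mul]
      simp only [Matrix.mul_assoc]
    rw [e, Matrix.mul_apply]
    refine Finset.sum_congr rfl fun i _ => ?_
    rw [Matrix.transpose_apply]
    ring
  set ℓ : Fin N → ℝ := fun k => Real.sqrt (∑ i, ((G * mR W0) i k) ^ 2) with hℓ
  have hdetW0 : |(mR W0).det| = 1 := by
    rw [mR_det]
    rcases Int.isUnit_iff.mp hW0 with h | h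
    · rw [h]
      simp
    · rw [h]
      simp
  have hdetGW0 : (G * mR W0).det ≠ 0 := by
    rw [Matrix.det_mul]
    refine mul_ne_zero hG ?_
    intro h
    rw [h] at hdetW0
    simp at hdetW0
  have hℓpos : ∀ k, 0 < ℓ k := by
    intro k
    rw [hℓ]
    apply Real.sqrt_pos.mpr
    by_contra hneg
    push Not at hneg
    have hz : ∀ i, (G * mR W0) i k = 0 := by
      intro i
      have h1 : ∑ i, ((G * mR W0) i k) ^ 2 = 0 :=
        le_antisymm hneg (Finset.sum_nonneg fun i _ => sq_nonneg _)
      have h2 := (Finset.sum_eq_zero_iff_of_nonneg (fun i _ => sq_nonneg _)).mp h1 i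
        (Finset.mem_univ i)
      exact pow_eq_zero_iff (two_ne_zero) |>.mp h2
    exact hdetGW0 (Matrix.det_eq_zero_of_column_eq_zero k hz)
  have hentry : ∀ i k, |(G * mR W0) i k| ≤ ℓ k := by
    intro i k
    rw [hℓ]
    apply Real.abs_le_sqrt
    exact Finset.single_le_sum (f := fun i => ((G * mR W0) i k) ^ 2) (fun i _ => sq_nonneg _)
      (Finset.mem_univ i)
  have hprod : ∏ k, ℓ k ≤ Real.sqrt C * |G.det| := by
    have h1 : (∏ k, ℓ k) ^ 2 ≤ C * (G.det) ^ 2 := by
      rw [← Finset.prod_pow]
      have e : ∀ k, ℓ k ^ 2 = ((mR W0)ᵀ * (Gᵀ * G) * mR W0) k k := by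
        intro k
        rw [hdiag, hℓ]
        exact Real.sq_sqrt (Finset.sum_nonneg fun i _ => sq_nonneg _)
      simp only [e]
      refine h0.trans (le_of_eq ?_)
      rw [Matrix.det_mul, Matrix.det_transpose]
      ring
    have h2 : (∏ k, ℓ k) ^ 2 ≤ (Real.sqrt C * |G.det|) ^ 2 := by
      rw [mul_pow, Real.sq_sqrt hC.le, sq_abs]
      exact h1
    exact (pow_le_pow_iff_left₀ (Finset.prod_nonneg fun k _ => (hℓpos k).le)
      (by positivity) two_ne_zero).mp h2
  -- sort
  set σ := Tuple.sort ℓ with hσ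
  set W := W0.submatrix id σ with hW
  have hGW : ∀ i k, (G * mR W) i k = (G * mR W0) i (σ k) := by
    intro i k
    simp only [Matrix.mul_apply, hW, Matrix.map_apply, Matrix.submatrix_apply, id_eq]
  have hWu : IsUnit W.det := by
    rw [hW, Matrix.det_permute']
    rcases Int.units_eq_one_or (Equiv.Perm.sign σ) with h | h
    · rw [h]
      simpa using hW0
    · rw [h]
      simpa using hW0
  refine ⟨W, fun k => ℓ (σ k), hWu, fun k => hℓpos _, ?_, ?_, ?_⟩
  · exact Tuple.monotone_sort ℓ
  · intro i k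
    rw [hGW]
    refine (hentry i (σ k)).trans ?_
    have := (hℓpos (σ k)).le
    nlinarith
  · intro k i
    -- scale the columns
    have hdetW : |(mR W).det| = 1 := by
      rw [mR_det]
      rcases Int.isUnit_iff.mp hWu with h | h
      · rw [h]
        simp
      · rw [h]
        simp
    set A : Matrix (Fin N) (Fin N) ℝ := fun i k => (G * mR W) i k / ℓ (σ k) with hA
    have hAe : G * mR W = A * Matrix.diagonal (fun k => ℓ (σ k)) := by
      ext i k
      rw [Matrix.mul_diagonal, hA]
      have := (hℓpos (σ k)).ne'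
      field_simp
    have hAle : ∀ i k, |A i k| ≤ 1 := by
      intro i k
      rw [hA]
      simp only
      rw [abs_div, abs_of_pos (hℓpos (σ k)), div_le_one (hℓpos (σ k)), hGW]
      exact hentry i (σ k)
    have hdetA : |A.det| * ∏ k, ℓ k = |G.det| := by
      have h1 : (G * mR W).det = A.det * ∏ k, ℓ (σ k) := by
        rw [hAe, Matrix.det_mul, Matrix.det_diagonal]
      have h2 : ∏ k, ℓ (σ k) = ∏ k, ℓ k := Equiv.prod_comp σ ℓ
      rw [Matrix.det_mul, h2] at h1
      have h3 : |G.det| * |(mR W).det| = |A.det| * |∏ k, ℓ k| := by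
        rw [← abs_mul, h1, abs_mul]
      rw [hdetW, mul_one, abs_of_pos (Finset.prod_pos fun k _ => hℓpos k)] at h3
      exact h3.symm
    have hGpos : 0 < |G.det| := abs_pos.mpr hG
    have hAdet0 : 0 < |A.det| := by
      rcases eq_or_lt_of_le (abs_nonneg A.det) with h | h
      · rw [← h] at hdetA
        rw [zero_mul] at hdetA
        exact absurd hdetA.symm hGpos.ne'
      · exact h
    have hinvA : 1 / |A.det| ≤ Real.sqrt C := by
      rw [div_le_iff₀ hAdet0]
      have h1 : |G.det| ≤ |A.det| * (Real.sqrt C * |G.det|) := by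
        rw [← hdetA] at hprod ⊢
        exact mul_le_mul_of_nonneg_left hprod (abs_nonneg _)
      have h2 : 1 * |G.det| ≤ (Real.sqrt C * |A.det|) * |G.det| := by nlinarith
      exact le_of_mul_le_mul_right h2 hGpos
    have hAunit : IsUnit A.det := isUnit_iff_ne_zero.mpr (abs_pos.mp hAdet0)
    have hinv : (G * mR W)⁻¹ k i = A⁻¹ k i / ℓ (σ k) := by
      rw [hAe, Matrix.mul_inv_rev]
      have hd : (Matrix.diagonal (fun k => ℓ (σ k)))⁻¹
          = Matrix.diagonal (fun k => (ℓ (σ k))⁻¹) := by
        apply Matrix.inv_eq_left_inv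
        rw [Matrix.diagonal_mul_diagonal, ← Matrix.diagonal_one]
        congr 1
        funext k
        exact inv_mul_cancel₀ (hℓpos (σ k)).ne'
      rw [hd, Matrix.diagonal_mul]
      rw [div_eq_mul_inv, mul_comm]
    have hadj : |A.adjugate k i| ≤ N.factorial := by
      rw [Matrix.adjugate_apply]
      have := Matrix.det_le (A := A.updateRow i (Pi.single k 1)) (abv := IsAbsoluteValue.toAbsoluteValue (abs : ℝ → ℝ))
        (x := (1 : ℝ)) (fun a b => by
          change |A.updateRow i (Pi.single k 1) a b| ≤ 1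
          rw [Matrix.updateRow_apply]
          split_ifs with h
          · by_cases hb : b = k
            · rw [hb]
              simp
            · rw [Pi.single_eq_of_ne hb]
              simp
          · exact hAle a b)
      simpa using this
    have hAinv : |A⁻¹ k i| ≤ N.factorial * Real.sqrt C := by
      rw [Matrix.inv_def, Matrix.smul_apply, Ring.inverse_eq_inv', smul_eq_mul, abs_mul, abs_inv]
      calc |A.det|⁻¹ * |A.adjugate k i| ≤ Real.sqrt C * N.factorial := by
            refine mul_le_mul ?_ hadj (abs_nonneg _) (Real.sqrt_nonneg _)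
            rw [← one_div]
            exact hinvA
        _ = N.factorial * Real.sqrt C := mul_comm _ _
    rw [hinv, abs_div, abs_of_pos (hℓpos (σ k))]
    refine div_le_div_of_nonneg_right ?_ (hℓpos (σ k)).le
    rw [hC1]
    linarith

end Pool.Agent.Helper2.SUB
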