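import Pool.Agent.Helper70.SUB.SheetA

/-!
Project SUB, row UNI: a primitive vector is the first column of a unimodular matrix.
-/

set_option autoImplicit false

namespace Pool.Agent.Helper2.SUB

open Finset Matrix Pool.Agent.Helper70.SUB

lemma uni_aux (N : ℕ) : ∀ (n : ℕ) (u : Fin (N + 1) → ℤ), ∑ i, (u i).natAbs = n → Prim u →
    ∃ T : Matrix (Fin (N + 1)) (Fin (N + 1)) ℤ, IsUnit T.det ∧ ∀ i, T i 0 = u i := by
  intro n
  induction n using Nat.strong_induction_on with
  | _ n ih =>
  intro u hn hu
  by_cases hA : ∃ i j, i ≠ j ∧ u j ≠ 0 ∧ (u j).natAbs ≤ (u i).natAbs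
  · obtain ⟨i, j, hij, hj, hle⟩ := hA
    set c : ℤ := (u i).sign * (u j).sign with hc
    set u' : Fin (N + 1) → ℤ := Function.update u i (u i - c * u j) with hu'
    have h1 : (u i - c * u j).natAbs < (u i).natAbs := by
      have e1 : c * u j = (u i).sign * (u j).natAbs := by
        rw [hc, mul_assoc, Int.sign_mul_self]
      have hjpos : 0 < (u j).natAbs := Int.natAbs_pos.mpr hj
      rcases lt_trichotomy (u i) 0 with h | h | h
      · rw [e1, Int.sign_eq_neg_one_of_neg h]
        omega
      · rw [h] at hle
        simp at hle
        exact absurd hle hj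
      · rw [e1, Int.sign_eq_one_of_pos h]
        omega
    have h2 : ∑ k, (u' k).natAbs < n := by
      rw [← hn]
      refine Finset.sum_lt_sum ?_ ⟨i, Finset.mem_univ i, ?_⟩
      · intro k _
        by_cases hk : k = i
        · rw [hk, hu', Function.update_self]
          exact h1.le
        · rw [hu', Function.update_of_ne hk]
      · rw [hu', Function.update_self]
        exact h1
    have h3 : Prim u' := by
      intro d hd
      refine hu d fun k => ?_
      have hdj : d ∣ u j := by
        have := hd j
        rwa [hu', Function.update_of_ne (Ne.symm hij)] at this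
      by_cases hk : k = i
      · have := hd i
        rw [hu', Function.update_self] at this
        rw [hk]
        have h4 := dvd_add this (hdj.mul_left c)
        simpa using h4
      · have := hd k
        rwa [hu', Function.update_of_ne hk] at this
    obtain ⟨T, hT, hT0⟩ := ih _ h2 u' rfl h3
    refine ⟨Matrix.transvection i j c * T, ?_, ?_⟩
    · rw [Matrix.det_mul, Matrix.det_transvection_of_ne i j hij, one_mul]
      exact hT
    · intro k
      by_cases hk : k = i
      · rw [hk, Matrix.transvection_mul_apply_same, hT0, hT0, hu', Function.update_self,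
          Function.update_of_ne (Ne.symm hij)]
        ring
      · rw [Matrix.transvection_mul_apply_of_ne _ _ _ _ hk, hT0, hu', Function.update_of_ne hk]
  · push Not at hA
    have hne : ∃ i, u i ≠ 0 := by
      by_contra h
      push Not at h
      have := hu 0 (fun i => by rw [h i])
      simp at this
    obtain ⟨i, hi⟩ := hne
    have hz : ∀ k, k ≠ i → u k = 0 := by
      intro k hk
      by_contra hk0
      have a1 := hA i k (Ne.symm hk) hk0
      have a2 := hA k i hk hi
      omega
    have hui : IsUnit (u i) := by
      refine hu (u i) fun k => ?_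
      by_cases hk : k = i
      · rw [hk]
      · rw [hz k hk]
        exact dvd_zero _
    refine ⟨(Matrix.diagonal (fun k => if k = i then u i else 1)).submatrix id
      (Equiv.swap 0 i), ?_, ?_⟩
    · rw [Matrix.det_permute', Matrix.det_diagonal]
      have e : ∏ k, (if k = i then u i else 1) = u i := by
        rw [Finset.prod_ite_eq' Finset.univ i (fun _ => u i)]
        simp
      rw [e]
      rcases Int.units_eq_one_or (Equiv.Perm.sign (Equiv.swap 0 i : Equiv.Perm (Fin (N + 1)))) with
        h | h
      · rw [h]
        simpa using hui
      · rw [h]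
        simpa using hui
    · intro k
      simp only [Matrix.submatrix_apply, id_eq, Equiv.swap_apply_left, Matrix.diagonal_apply]
      by_cases hk : k = i
      · rw [if_pos hk, if_pos hk, hk]
      · rw [if_neg hk, hz k hk]

theorem UNI : ST_UNI := fun N u hu => uni_aux N _ u rfl hu

end Pool.Agent.Helper2.SUB
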